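import Pool.Agent.Work.MP_f36782_h20.Main

set_option autoImplicit false

namespace Pool.Agent.Work.MP_f36782_lc_retired.Universal

open Pool.Agent.Work.RamseyAD

/-- Let `A` be a set of infinite subsets of `ℕ` such that all games on `ℕ` whose payoff set is
`{z | range (f z) ∈ A}`, `f` a continuous map into the strictly increasing sequences, are
determined.  Suppose that no infinite `H ⊆ X` is homogeneous for `A`.  Then there is a map `G` from
the sets of natural numbers to Cantor space such that for every infinite `H ⊆ X` and every map `f`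
to Cantor space all of whose coordinates are completely Ramsey below `H` there is an infinite
`y ⊆ H` with `G y = f y`.  (For constant `f`: on every `[H]^ω`, `H ⊆ X` infinite, the map `G` takes
all values.) -/
theorem result (A : Set (Set ℕ))
    (hdet : ∀ f : (ℕ → ℕ) → (ℕ → ℕ), Continuous f → (∀ z, StrictMono (f z)) →
      Determined {z | Set.range (f z) ∈ A})
    (X : Set ℕ)
    (hA : ¬ ∃ H : Set ℕ, H ⊆ X ∧ H.Infinite ∧
      ((∀ y : Set ℕ, y ⊆ H → y.Infinite → y ∈ A) ∨
        (∀ y : Set ℕ, y ⊆ H → y.Infinite → y ∉ A))) :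
    ∃ G : Set ℕ → (ℕ → Bool), ∀ H : Set ℕ, H ⊆ X → H.Infinite → ∀ f : Set ℕ → (ℕ → Bool),
      (∀ (i : ℕ) (s : Finset ℕ) (K : Set ℕ), K ⊆ H → K.Infinite →
        ∃ K' : Set ℕ, K' ⊆ K ∧ K'.Infinite ∧
          ((∀ y : Set ℕ, y ⊆ K' → y.Infinite → f ((s : Set ℕ) ∪ y) i = true) ∨
            (∀ y : Set ℕ, y ⊆ K' → y.Infinite → f ((s : Set ℕ) ∪ y) i = false))) →
      ∃ y : Set ℕ, y ⊆ H ∧ y.Infinite ∧ G y = f y := by
  obtain ⟨G, hG⟩ := universal A hdet X hA
  refine ⟨G, fun H hHX hH f hf => hG H hHX hH f fun i s K hKH hK => ?_⟩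
  obtain ⟨K', h1, h2, h3⟩ := hf i s K hKH hK
  refine ⟨K', h1, h2, ?_⟩
  rcases h3 with h3 | h3
  · exact Or.inl fun y hy hyi => h3 y hy hyi
  · refine Or.inr fun y hy hyi hcon => ?_
    have h4 : f ((s : Set ℕ) ∪ y) i = true := hcon
    rw [h3 y hy hyi] at h4
    exact absurd h4 (by decide)

end Pool.Agent.Work.MP_f36782_lc_retired.Universal
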